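import Pool.Agent.H369Z.Pole.D
import Pool.Agent.H295R2.L
import Pool.Agent.H520Z.Sel.SBridge

/-! The zeta function as a member of the Selberg class, and the coefficients of
`exp (∑ x_p p^(-s)) / ζ(s)`. -/

set_option autoImplicit false

open Filter Topology Complex

namespace Pool.Agent.H803Z.QR

open Pool.Agent.H520Z.Sel Pool.Agent.H369Z.Pole Pool.Agent.H295R2

noncomputable section

theorem zeta_selberg : Selberg (fun _ => 1) riemannZeta 1 := by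
  refine ⟨rfl, fun s hs => ⟨LSeriesSummable_one_iff.2 hs, (LSeries_one_eq_riemannZeta hs).symm⟩,
    fun ε hε => ⟨1, fun n hn => ?_⟩,
    ⟨1, riemannZeta₁, differentiable_riemannZeta₁, ?_, fun s hs => ?_⟩,
    ⟨Real.pi ^ (-(1 / 2) : ℝ), 1, fun _ => 1 / 2, fun _ => 0, 1,
      Real.rpow_pos_of_pos Real.pi_pos _, fun _ => by norm_num, fun _ => le_rfl, norm_one,
      by simp, fun s hs0 hs1 g1 g2 => ?_⟩,
    ⟨fun n => ((ArithmeticFunction.vonMangoldt n : ℝ) : ℂ) / (Real.log n : ℝ), 0, 1, by norm_num,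
      fun n hn => ?_, fun n _ => by simpa using lam_norm n, fun s hs => ⟨?_, ?_⟩⟩⟩
  · rw [norm_one, one_mul]
    exact Real.one_le_rpow (by exact_mod_cast hn) hε.le
  · obtain ⟨A, B, h⟩ := OrdB.order (f := riemannZeta₁) Pool.Agent.H458Z.Z1.z1_order
    exact ⟨B, A, h⟩
  · rw [pow_one, Pool.Agent.H437R2.z1_of_ne hs]
  · have key : ∀ z : ℂ, z ≠ 0 → (∀ n : ℕ, ((1 / 2 : ℝ) : ℂ) * z ≠ -(n : ℂ)) →
        ((Real.pi ^ (-(1 / 2) : ℝ) : ℝ) : ℂ) ^ z *
          (∏ _j : Fin 1, Complex.Gamma (((1 / 2 : ℝ) : ℂ) * z + 0)) * riemannZeta z =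
          completedRiemannZeta z := by
      intro z hz g
      have k2 : completedRiemannZeta z = Gammaℝ z * riemannZeta z := by
        rw [riemannZeta_def_of_ne_zero hz]
        have := GammaR_ne g
        field_simp
      have k3 : ((Real.pi ^ (-(1 / 2) : ℝ) : ℝ) : ℂ) ^ z = (Real.pi : ℂ) ^ (-z / 2) := by
        rw [show -z / 2 = ((-(1 / 2) : ℝ) : ℂ) * z by push_cast; ring,
          Complex.cpow_mul_ofReal_nonneg Real.pi_pos.le]
      have e : ((1 / 2 : ℝ) : ℂ) * z = z / 2 := by push_cast; ring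
      rw [k2, k3, Gammaℝ_def, Fin.prod_univ_one, add_zero, e]
    have g1' : ∀ n : ℕ, ((1 / 2 : ℝ) : ℂ) * s ≠ -(n : ℂ) := fun n => by simpa using g1 0 n
    have g2' : ∀ n : ℕ, ((1 / 2 : ℝ) : ℂ) * (1 - starRingEnd ℂ s) ≠ -(n : ℂ) :=
      fun n => by simpa using g2 0 n
    have h3 : 1 - starRingEnd ℂ s ≠ 0 := by
      intro h
      apply hs1
      have := congrArg (starRingEnd ℂ) (sub_eq_zero.1 h)
      simpa using this.symm
    rw [key s hs0 g1', key _ h3 g2', one_mul, completedRiemannZeta_one_sub,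
      completed_conj hs0 g1']
  · beta_reduce
    rw [ArithmeticFunction.vonMangoldt_eq_zero_iff.2 hn]
    simp
  · exact LSeriesSummable_of_bounded_of_one_lt_re (m := 1) (fun n _ => lam_norm n) hs
  · exact (riemannZeta_eq_exp_LSeries hs).symm

/-- the Moebius function with real values -/
def mu (n : ℕ) : ℝ := ((ArithmeticFunction.moebius n : ℤ) : ℝ)

lemma mu_zero : mu 0 = 0 := by simp [mu]

lemma mu_abs (n : ℕ) : |mu n| ≤ 1 := by
  unfold mu
  exact_mod_cast ArithmeticFunction.abs_moebius_le_one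

lemma mu_cast : (fun n => ((mu n : ℝ) : ℂ)) = fun n => ((ArithmeticFunction.moebius n : ℤ) : ℂ) := by
  funext n
  simp [mu]

/-- coefficients of the quotient by `ζ` -/
def qc (x : ℕ → ℝ) (N : ℕ) : ℝ := ∑ p ∈ N.divisorsAntidiagonal, ec x p.1 * mu p.2

lemma qc_zero (x : ℕ → ℝ) : qc x 0 = 0 := by simp [qc]

lemma qc_one (x : ℕ → ℝ) : qc x 1 = 1 := by simp [qc, mu, ec_one]

lemma qc_conv (x : ℕ → ℝ) : (fun n => ((qc x n : ℝ) : ℂ)) =
    LSeries.convolution (aC x) (fun n => ((ArithmeticFunction.moebius n : ℤ) : ℂ)) := by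
  funext n
  rw [LSeries.convolution_def]
  simp [qc, aC, mu]

lemma qc_hasSum {x : ℕ → ℝ} (hx : ∀ p, |x p| ≤ 1) {s : ℂ} (hs : 1 < s.re) :
    LSeriesSummable (fun n => ((qc x n : ℝ) : ℂ)) s ∧
      LSeries (fun n => ((qc x n : ℝ) : ℂ)) s = LSeries (aC x) s * fz s := by
  rw [qc_conv]
  refine ⟨(aC_hasSum hx hs).LSeriesSummable.convolution (moebius_lseries hs).LSeriesSummable, ?_⟩
  rw [LSeries_convolution' (aC_hasSum hx hs).LSeriesSummable (moebius_lseries hs).LSeriesSummable,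
    (moebius_lseries hs).LSeries_eq]

lemma qc_ram {x : ℕ → ℝ} (hx : ∀ p, |x p| ≤ 1) (ε : ℝ) (hε : 0 < ε) :
    ∃ C : ℝ, ∀ n : ℕ, 1 ≤ n → |qc x n| ≤ C * (n : ℝ) ^ ε := by
  obtain ⟨C1, h1⟩ := ec_bound hx (ε / 2) (by linarith)
  obtain ⟨C2, hC2, h2⟩ := Pool.Agent.H510R2.divisor_bound (ε / 2) (by linarith)
  have hC1 : 0 ≤ C1 := by
    have := h1 1 le_rfl
    simp only [Nat.cast_one, Real.one_rpow, mul_one] at this
    exact (abs_nonneg _).trans this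
  refine ⟨C2 * C1, fun n hn => ?_⟩
  have hn0 : (0 : ℝ) < n := by exact_mod_cast hn
  unfold qc
  rw [Nat.sum_divisorsAntidiagonal (fun d e => ec x d * mu e)]
  refine (Finset.abs_sum_le_sum_abs _ _).trans ?_
  have h3 : ∀ d ∈ n.divisors, |ec x d * mu (n / d)| ≤ C1 * (n : ℝ) ^ (ε / 2) := by
    intro d hd
    have hd1 : 1 ≤ d := Nat.pos_of_mem_divisors hd
    have hdn : (d : ℝ) ≤ n := by exact_mod_cast Nat.divisor_le hd
    rw [abs_mul]
    refine (mul_le_of_le_one_right (abs_nonneg _) (mu_abs _)).trans ((h1 d hd1).trans ?_)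
    gcongr
  refine (Finset.sum_le_card_nsmul _ _ _ h3).trans ?_
  rw [nsmul_eq_mul]
  have e : (n : ℝ) ^ ε = (n : ℝ) ^ (ε / 2) * (n : ℝ) ^ (ε / 2) := by
    rw [← Real.rpow_add hn0]; congr 1; ring
  calc (n.divisors.card : ℝ) * (C1 * (n : ℝ) ^ (ε / 2))
      ≤ (C2 * (n : ℝ) ^ (ε / 2)) * (C1 * (n : ℝ) ^ (ε / 2)) := by
        gcongr
        exact h2 n hn
    _ = _ := by rw [e]; ring

/-- coefficients of the logarithm of the quotient -/
def bq (x : ℕ → ℝ) (n : ℕ) : ℂ :=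
  xP x n - ((ArithmeticFunction.vonMangoldt n : ℝ) : ℂ) / (Real.log n : ℝ)

lemma bq_norm {x : ℕ → ℝ} (hx : ∀ p, |x p| ≤ 1) (n : ℕ) : ‖bq x n‖ ≤ 2 := by
  unfold bq
  refine (norm_sub_le _ _).trans ?_
  linarith [lam_norm n, xP_norm hx n]

lemma bq_zero (x : ℕ → ℝ) {n : ℕ} (hn : ¬ IsPrimePow n) : bq x n = 0 := by
  unfold bq xP
  rw [ArithmeticFunction.vonMangoldt_eq_zero_iff.2 hn, if_neg (fun hp => hn hp.isPrimePow)]
  simp

lemma qc_exp {x : ℕ → ℝ} (hx : ∀ p, |x p| ≤ 1) {s : ℂ} (hs : 1 < s.re) :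
    LSeries (fun n => ((qc x n : ℝ) : ℂ)) s = Complex.exp (LSeries (bq x) s) := by
  have h1 : LSeriesSummable
      (fun n : ℕ => ((ArithmeticFunction.vonMangoldt n : ℝ) : ℂ) / (Real.log n : ℝ)) s :=
    LSeriesSummable_of_bounded_of_one_lt_re (m := 1) (fun n _ => lam_norm n) hs
  have h2 : bq x = xP x -
      (fun n : ℕ => ((ArithmeticFunction.vonMangoldt n : ℝ) : ℂ) / (Real.log n : ℝ)) := rfl
  have hs1 : s ≠ 1 := by rintro rfl; simp at hs
  rw [h2, LSeries_sub (xP_summable hx hs) h1, Complex.exp_sub, riemannZeta_eq_exp_LSeries hs,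
    (qc_hasSum hx hs).2, (aC_hasSum hx hs).LSeries_eq, xP_LSeries, fz_eq hs1, div_eq_mul_inv]

lemma aC_upper {x : ℕ → ℝ} (hx : ∀ p, |x p| ≤ 1)
    (hs : Summable (fun p : ℕ => |x p| * (p : ℝ) ^ (-1 : ℝ))) :
    ∃ d0 : ℝ, ∀ s : ℂ, 1 < s.re → ‖LSeries (aC x) s‖ ≤ d0 := by
  have h1 : Summable fun p : Nat.Primes => |x p| * ((p : ℕ) : ℝ) ^ (-1 : ℝ) :=
    hs.comp_injective Nat.Primes.coe_nat_injective
  refine ⟨Real.exp (∑' p : Nat.Primes, |x p| * ((p : ℕ) : ℝ) ^ (-1 : ℝ)), fun s hs1 => ?_⟩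
  rw [(aC_hasSum hx hs1).LSeries_eq, Complex.norm_exp]
  apply Real.exp_le_exp.2
  have h2 : ‖∑' p : Nat.Primes, (x p : ℂ) * ((p : ℕ) : ℂ) ^ (-s)‖ ≤
      ∑' p : Nat.Primes, |x p| * ((p : ℕ) : ℝ) ^ (-1 : ℝ) := by
    refine tsum_of_norm_bounded h1.hasSum fun p => ?_
    rw [norm_mul, Complex.norm_real, Real.norm_eq_abs, Complex.norm_natCast_cpow_of_pos p.2.pos]
    refine mul_le_mul_of_nonneg_left (Real.rpow_le_rpow_of_exponent_le ?_ ?_) (abs_nonneg _)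
    · exact_mod_cast p.2.one_lt.le
    · simp; linarith
  exact (Complex.re_le_norm _).trans h2

/-- Convolution rearrangement. -/
lemma hasSum_qc {x : ℕ → ℝ} (hx : ∀ p, |x p| ≤ 1) (φ : ℕ → ℝ) (K : ℝ)
    (hφ : ∀ n : ℕ, 1 ≤ n → |φ n| ≤ K * (n : ℝ) ^ (-3 : ℝ)) :
    HasSum (fun n => ec x n * ∑' m, mu m * φ (n * m)) (∑' N, qc x N * φ N) := by
  have hz : Summable fun n : ℕ => (n : ℝ) ^ (-2 : ℝ) := Real.summable_nat_rpow.2 (by norm_num)
  have h1 : ∀ (f : ℕ → ℝ) (C : ℝ), f 0 = 0 → (∀ n : ℕ, 1 ≤ n → |f n| ≤ C * (n : ℝ) ^ (1 : ℝ)) →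
      Summable fun n => |f n| * (n : ℝ) ^ (-3 : ℝ) := by
    intro f C h0 hf
    refine Summable.of_nonneg_of_le (fun n => by positivity) (fun n => ?_) (hz.mul_left C)
    rcases Nat.eq_zero_or_pos n with rfl | hn
    · simp [h0]
    · have hn' : (0 : ℝ) < n := by exact_mod_cast hn
      calc _ ≤ C * (n : ℝ) ^ (1 : ℝ) * (n : ℝ) ^ (-3 : ℝ) := by gcongr; exact hf n hn
        _ = _ := by rw [mul_assoc, ← Real.rpow_add hn']; norm_num
  obtain ⟨C1, hC1⟩ := ec_bound hx 1 one_pos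
  have a1 := h1 (ec x) C1 (ec_zero x) hC1
  have a2 := h1 mu 1 mu_zero fun n hn => by
    rw [Real.rpow_one, one_mul]
    exact (mu_abs n).trans (by exact_mod_cast hn)
  have h2 := (summable_mul_of_summable_norm (R := ℝ) a1.norm a2.norm).mul_left K
  have h3 : Summable fun q : ℕ × ℕ => ec x q.1 * (mu q.2 * φ (q.1 * q.2)) := by
    refine Summable.of_norm_bounded h2 fun q => ?_
    rcases Nat.eq_zero_or_pos q.1 with h | h
    · simp [h, ec_zero]
    rcases Nat.eq_zero_or_pos q.2 with h' | h'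
    · simp [h', mu_zero]
    have h4 := hφ (q.1 * q.2) (Nat.mul_pos h h')
    rw [Nat.cast_mul, Real.mul_rpow (Nat.cast_nonneg _) (Nat.cast_nonneg _)] at h4
    rw [Real.norm_eq_abs, abs_mul, abs_mul]
    calc _ ≤ |ec x q.1| * (|mu q.2| * (K * ((q.1 : ℝ) ^ (-3 : ℝ) * (q.2 : ℝ) ^ (-3 : ℝ)))) := by
          gcongr
      _ = _ := by ring
  have h5 := h3.hasSum.tsum_fiberwise (fun p : ℕ × ℕ => p.1 * p.2)
  have h6 : ∀ N : ℕ, ∑' (b : (fun p : ℕ × ℕ ↦ p.1 * p.2) ⁻¹' {N}),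
      ec x b.val.1 * (mu b.val.2 * φ (b.val.1 * b.val.2)) = qc x N * φ N := by
    intro N
    rcases eq_or_ne N 0 with rfl | hN
    · have : ∀ p : (fun p : ℕ × ℕ ↦ p.1 * p.2) ⁻¹' {0},
          ec x p.val.1 * (mu p.val.2 * φ (p.val.1 * p.val.2)) = 0 := by
        rintro ⟨⟨a, b⟩, hp⟩
        have hp' : a * b = 0 := hp
        rcases Nat.mul_eq_zero.1 hp' with rfl | rfl <;> simp [ec_zero, mu_zero]
      simp [this, qc_zero]
    rw [show (fun p : ℕ × ℕ ↦ p.1 * p.2) ⁻¹' {N} = N.divisorsAntidiagonal by ext; simp [hN],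
      Finset.tsum_subtype' N.divisorsAntidiagonal
        fun p ↦ ec x p.1 * (mu p.2 * φ (p.1 * p.2)), qc, Finset.sum_mul]
    refine Finset.sum_congr rfl fun p hp => ?_
    rw [(Nat.mem_divisorsAntidiagonal.1 hp).1]
    ring
  simp_rw [h6] at h5
  rw [h5.tsum_eq]
  refine h3.hasSum.prod_fiberwise fun n => ?_
  simp only
  rw [← tsum_mul_left]
  exact (h3.prod_factor n).hasSum

end

end Pool.Agent.H803Z.QR
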