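import Pool.Agent.H803Z.QR.Arith

/-! The Selberg class is closed under products. -/

set_option autoImplicit false

open Filter Topology Complex

namespace Pool.Agent.H803Z.QR

open Pool.Agent.H520Z.Sel

lemma order_mul {G G' : ℂ → ℂ} (hG : Continuous G) (hG' : Continuous G')
    (h : ∃ ρ C : ℝ, ∀ s : ℂ, ‖G s‖ ≤ C * Real.exp (‖s‖ ^ ρ))
    (h' : ∃ ρ C : ℝ, ∀ s : ℂ, ‖G' s‖ ≤ C * Real.exp (‖s‖ ^ ρ)) :
    ∃ ρ C : ℝ, ∀ s : ℂ, ‖G s * G' s‖ ≤ C * Real.exp (‖s‖ ^ ρ) := by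
  obtain ⟨ρ, C, h⟩ := h
  obtain ⟨ρ', C', h'⟩ := h'
  obtain ⟨B, hB⟩ := (isCompact_closedBall (0 : ℂ) 2).exists_bound_of_continuousOn
    (hG.mul hG').continuousOn
  have hB0 : 0 ≤ B := (norm_nonneg _).trans (hB 0 (by simp))
  have hC : 0 ≤ C := by
    have := (norm_nonneg _).trans (h 0)
    exact nonneg_of_mul_nonneg_left this (Real.exp_pos _)
  have hC' : 0 ≤ C' := by
    have := (norm_nonneg _).trans (h' 0)
    exact nonneg_of_mul_nonneg_left this (Real.exp_pos _)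
  refine ⟨max ρ ρ' + 1, B + C * C', fun s => ?_⟩
  have he : 1 ≤ Real.exp (‖s‖ ^ (max ρ ρ' + 1)) := Real.one_le_exp (by positivity)
  have hCC : 0 ≤ C * C' := by positivity
  rcases le_total ‖s‖ 2 with hs | hs
  · have := hB s (by simpa using hs)
    simp only [Pi.mul_apply] at this
    nlinarith
  · have a1 : ‖s‖ ^ ρ ≤ ‖s‖ ^ max ρ ρ' :=
      Real.rpow_le_rpow_of_exponent_le (by linarith) (le_max_left _ _)
    have a2 : ‖s‖ ^ ρ' ≤ ‖s‖ ^ max ρ ρ' :=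
      Real.rpow_le_rpow_of_exponent_le (by linarith) (le_max_right _ _)
    have a3 : ‖s‖ ^ (max ρ ρ' + 1) = ‖s‖ ^ max ρ ρ' * ‖s‖ :=
      Real.rpow_add_one (by linarith) _
    have a4 : 0 ≤ ‖s‖ ^ max ρ ρ' := by positivity
    have a5 : ‖s‖ ^ ρ + ‖s‖ ^ ρ' ≤ ‖s‖ ^ (max ρ ρ' + 1) := by rw [a3]; nlinarith
    calc ‖G s * G' s‖ = ‖G s‖ * ‖G' s‖ := norm_mul _ _
      _ ≤ (C * Real.exp (‖s‖ ^ ρ)) * (C' * Real.exp (‖s‖ ^ ρ')) :=
          mul_le_mul (h s) (h' s) (norm_nonneg _) (by positivity)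
      _ = C * C' * Real.exp (‖s‖ ^ ρ + ‖s‖ ^ ρ') := by rw [Real.exp_add]; ring
      _ ≤ C * C' * Real.exp (‖s‖ ^ (max ρ ρ' + 1)) := by gcongr
      _ ≤ _ := by nlinarith

lemma conv_ram {a a' : ℕ → ℂ}
    (h : ∀ ε : ℝ, 0 < ε → ∃ C : ℝ, ∀ n : ℕ, 1 ≤ n → ‖a n‖ ≤ C * (n : ℝ) ^ ε)
    (h' : ∀ ε : ℝ, 0 < ε → ∃ C : ℝ, ∀ n : ℕ, 1 ≤ n → ‖a' n‖ ≤ C * (n : ℝ) ^ ε)
    (ε : ℝ) (hε : 0 < ε) :
    ∃ C : ℝ, ∀ n : ℕ, 1 ≤ n → ‖LSeries.convolution a a' n‖ ≤ C * (n : ℝ) ^ ε := by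
  obtain ⟨C1, h1⟩ := h (ε / 2) (by linarith)
  obtain ⟨C1', h1'⟩ := h' (ε / 2) (by linarith)
  obtain ⟨C2, hC2, h2⟩ := Pool.Agent.H510R2.divisor_bound (ε / 2) (by linarith)
  have hC1 : 0 ≤ C1 := by simpa using (norm_nonneg _).trans (h1 1 le_rfl)
  have hC1' : 0 ≤ C1' := by simpa using (norm_nonneg _).trans (h1' 1 le_rfl)
  refine ⟨C2 * (C1 * C1'), fun n hn => ?_⟩
  have hn0 : (0 : ℝ) < n := by exact_mod_cast hn
  rw [LSeries.convolution_def]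
  simp only
  rw [Nat.sum_divisorsAntidiagonal (fun d e => a d * a' e)]
  refine (norm_sum_le _ _).trans ?_
  have h3 : ∀ d ∈ n.divisors, ‖a d * a' (n / d)‖ ≤ C1 * C1' * (n : ℝ) ^ (ε / 2) := by
    intro d hd
    have hd1 : 1 ≤ d := Nat.pos_of_mem_divisors hd
    have hdv : d ∣ n := Nat.dvd_of_mem_divisors hd
    have hd2 : 1 ≤ n / d := Nat.div_pos (Nat.divisor_le hd) hd1
    have e : (n : ℝ) = d * ((n / d : ℕ) : ℝ) := by
      exact_mod_cast (Nat.mul_div_cancel' hdv).symm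
    rw [norm_mul]
    refine (mul_le_mul (h1 d hd1) (h1' _ hd2) (norm_nonneg _) (by positivity)).trans
      (le_of_eq ?_)
    conv_rhs => rw [e, Real.mul_rpow (Nat.cast_nonneg _) (Nat.cast_nonneg _)]
    ring
  refine (Finset.sum_le_card_nsmul _ _ _ h3).trans ?_
  rw [nsmul_eq_mul]
  have e : (n : ℝ) ^ ε = (n : ℝ) ^ (ε / 2) * (n : ℝ) ^ (ε / 2) := by
    rw [← Real.rpow_add hn0]; congr 1; ring
  calc (n.divisors.card : ℝ) * (C1 * C1' * (n : ℝ) ^ (ε / 2))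
      ≤ (C2 * (n : ℝ) ^ (ε / 2)) * (C1 * C1' * (n : ℝ) ^ (ε / 2)) := by
        gcongr
        exact h2 n hn
    _ = _ := by rw [e]; ring

theorem selberg_mul {a a' : ℕ → ℂ} {F F' : ℂ → ℂ} {d d' : ℝ} (h : Selberg a F d)
    (h' : Selberg a' F' d') :
    Selberg (LSeries.convolution a a') (fun s => F s * F' s) (d + d') := by
  obtain ⟨h1, h2, h3, ⟨m, G, g1, g2, g3⟩, ⟨Q, r, lam, μ, ω, f1, f2, f3, f4, f5, f6⟩,
    b, θ, C, e1, e2, e3, e4⟩ := h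
  obtain ⟨h1', h2', h3', ⟨m', G', g1', g2', g3'⟩, ⟨Q', r', lam', μ', ω', f1', f2', f3', f4', f5', f6'⟩,
    b', θ', C', e1', e2', e3', e4'⟩ := h'
  refine ⟨?_, fun s hs => ⟨(h2 s hs).1.convolution (h2' s hs).1, ?_⟩, conv_ram h3 h3',
    ⟨m + m', fun s => G s * G' s, g1.mul g1', order_mul g1.continuous g1'.continuous g2 g2',
      fun s hs => ?_⟩,
    ⟨Q * Q', r + r', Fin.append lam lam', Fin.append μ μ', ω * ω', by positivity, ?_, ?_, ?_, ?_,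
      fun s s0 s1 k1 k2 => ?_⟩,
    b + b', max θ θ', |C| + |C'|, max_lt e1 e1', fun n hn => ?_, fun n hn => ?_,
    fun s hs => ⟨(e4 s hs).1.add (e4' s hs).1, ?_⟩⟩
  · rw [LSeries.convolution_def]
    simp [h1, h1']
  · rw [LSeries_convolution' (h2 s hs).1 (h2' s hs).1, ← (h2 s hs).2, ← (h2' s hs).2]
  · simp only
    rw [g3 s hs, g3' s hs]
    ring
  · intro j
    refine Fin.addCases (fun i => ?_) (fun i => ?_) j
    · simpa using f2 i
    · simpa using f2' i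
  · intro j
    refine Fin.addCases (fun i => ?_) (fun i => ?_) j
    · simpa using f3 i
    · simpa using f3' i
  · rw [norm_mul, f4, f4', one_mul]
  · rw [Fin.sum_univ_add, f5, f5']
    simp only [Fin.append_left, Fin.append_right]
    ring
  · have a1 := f6 s s0 s1 (fun j n => by simpa using k1 (Fin.castAdd r' j) n)
      (fun j n => by simpa using k2 (Fin.castAdd r' j) n)
    have a2 := f6' s s0 s1 (fun j n => by simpa using k1 (Fin.natAdd r j) n)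
      (fun j n => by simpa using k2 (Fin.natAdd r j) n)
    simp only [Fin.prod_univ_add, Fin.append_left, Fin.append_right, Complex.ofReal_mul,
      Complex.mul_cpow_ofReal_nonneg f1.le f1'.le]
    simp only [map_mul] at a1 a2 ⊢
    linear_combination ((Q' : ℂ) ^ s * (∏ j, Complex.Gamma ((lam' j : ℂ) * s + μ' j)) * F' s) * a1 +
      (ω * (starRingEnd ℂ ((Q : ℂ) ^ (1 - starRingEnd ℂ s)) *
        starRingEnd ℂ (∏ j, Complex.Gamma ((lam j : ℂ) * (1 - starRingEnd ℂ s) + μ j)) *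
        starRingEnd ℂ (F (1 - starRingEnd ℂ s)))) * a2
  · simp [e2 n hn, e2' n hn]
  · have hn' : (1 : ℝ) ≤ n := by exact_mod_cast hn
    have a1 : (n : ℝ) ^ θ ≤ (n : ℝ) ^ max θ θ' :=
      Real.rpow_le_rpow_of_exponent_le hn' (le_max_left _ _)
    have a2 : (n : ℝ) ^ θ' ≤ (n : ℝ) ^ max θ θ' :=
      Real.rpow_le_rpow_of_exponent_le hn' (le_max_right _ _)
    have a3 : ‖b n‖ ≤ |C| * (n : ℝ) ^ max θ θ' :=
      (e3 n hn).trans (mul_le_mul (le_abs_self C) a1 (by positivity) (abs_nonneg _))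
    have a4 : ‖b' n‖ ≤ |C'| * (n : ℝ) ^ max θ θ' :=
      (e3' n hn).trans (mul_le_mul (le_abs_self C') a2 (by positivity) (abs_nonneg _))
    rw [Pi.add_apply, add_mul]
    exact (norm_add_le _ _).trans (add_le_add a3 a4)
  · simp only
    rw [LSeries_add (e4 s hs).1 (e4' s hs).1, Complex.exp_add, ← (e4 s hs).2, ← (e4' s hs).2]

end Pool.Agent.H803Z.QR
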