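import Pool.Agent.H803Z.QR.Main
import Pool.Agent.H803Z.QR.Prod

/-! No zero-free half plane in the Selberg class. -/

set_option autoImplicit false

namespace Pool.Agent.H803Z.QR

open Pool.Agent.H520Z.Sel

theorem no_halfplane : ∃ d₀ : ℝ, ∀ d : ℝ, d₀ ≤ d → ∃ (a : ℕ → ℂ) (F : ℂ → ℂ), Selberg a F d ∧
    ∀ σ₀ : ℝ, σ₀ < 1 → ∃ s : ℂ, σ₀ ≤ s.re ∧ AnalyticAt ℂ F s ∧ F s = 0 := by
  by_cases h : ∃ θ : ℝ, 1 / 2 ≤ θ ∧ θ < 1 ∧ ∀ s : ℂ, θ < s.re → riemannZeta s ≠ 0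
  · obtain ⟨θ, h1, h2, h3⟩ := h
    obtain ⟨d₀, hd⟩ := exists_zero_at_one h1 h2 h3
    refine ⟨d₀, fun d hd' => ?_⟩
    obtain ⟨a, F, hS, hF, h0⟩ := hd d hd'
    exact ⟨a, F, hS, fun σ₀ hσ => ⟨1, by simpa using hσ.le, hF.analyticAt 1, h0⟩⟩
  · push Not at h
    obtain ⟨l0, hl⟩ := exists_exotic
    refine ⟨2 * l0 + 1, fun d hd => ?_⟩
    obtain ⟨Q, c, G, hG, -⟩ := hl ((d - 1) / 2) (by linarith)
    have hS := selberg_mul zeta_selberg hG.selberg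
    rw [show 1 + 2 * ((d - 1) / 2) = d by ring] at hS
    refine ⟨_, _, hS, fun σ₀ hσ => ?_⟩
    obtain ⟨s, hs1, hs2⟩ := h (max σ₀ (1 / 2)) (le_max_right _ _) (max_lt hσ (by norm_num))
    have hs : s ≠ 1 := by
      rintro rfl
      exact riemannZeta_ne_zero_of_one_le_re (by simp) hs2
    refine ⟨s, (le_max_left _ _).trans hs1.le, ?_, by simp [hs2]⟩
    exact (analyticOn_riemannZeta s hs).mul (hG.diff.analyticAt s)

end Pool.Agent.H803Z.QR
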