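import Pool.Agent.H62Z.KernelMellin

/-! Mellin transform of an exponential series, continued to a half plane `Re s > α`. -/

set_option autoImplicit false

namespace Pool.Agent.H803Z.QR

open MeasureTheory Set
open Pool.Agent.H62Z.KM

theorem kernel_mellin_gen (α : ℝ) (hα : 0 < α) (lam : ℝ) (hlam : 1 ≤ lam) (a : ℕ → ℝ) (ha0 : a 0 = 0) (C : ℝ)
    (ha : ∀ n : ℕ, |a n| ≤ C * n) (F : ℂ → ℂ) (hF : DifferentiableOn ℂ F {s : ℂ | α < s.re})
    (hFb : ∀ s : ℂ, α < s.re → ‖F s‖ ≤ C * (2 + |s.im|))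
    (hFa : ∀ s : ℂ, 3 ≤ s.re → F s = LSeries (fun n => (a n : ℂ)) s)
    (E E' : ℝ → ℝ) (hE : ∀ y, E y = ∑' n : ℕ, a n * Real.exp (-(y * (n : ℝ) ^ (1 / lam))))
    (hE' : ∀ y, E' y = ∑' n : ℕ,
      -(a n * (n : ℝ) ^ (1 / lam) * Real.exp (-(y * (n : ℝ) ^ (1 / lam))))) :
    (∀ y, 0 < y → HasDerivAt E (E' y) y) ∧ ContinuousOn E' (Ioi 0) ∧
    (∀ b : ℝ, α * lam < b → ∃ K : ℝ, ∀ y, 0 < y → y ^ b * |E y| ≤ K) ∧
    (∀ w : ℂ, α * lam < w.re →
      HasMellin (fun y => (E y : ℂ)) w (Complex.Gamma w * F (w / lam)) ∧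
      HasMellin (fun y => ((y * E' y : ℝ) : ℂ)) w (-(w * Complex.Gamma w * F (w / lam)))) := by
  have hl0 : 0 < lam := by linarith
  have hαl : 0 < α * lam := by positivity
  have hC : 0 ≤ C := by simpa using (abs_nonneg _).trans (ha 1)
  set p : ℕ → ℝ := fun n => (n : ℝ) ^ (1 / lam) with hpdef
  set c : ℕ → ℝ := fun n => -(a n * p n) with hcdef
  have hp : ∀ n, a n = 0 ∨ 1 ≤ p n := fun n => by
    rcases Nat.eq_zero_or_pos n with rfl | h
    · exact Or.inl ha0
    · exact Or.inr (Real.one_le_rpow (by exact_mod_cast h) (by positivity))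
  have hp' : ∀ n, c n = 0 ∨ 1 ≤ p n := fun n => (hp n).imp_left fun h => by simp [hcdef, h]
  have hs : Summable fun n => |a n| / p n ^ (3 * lam) := by
    refine Summable.of_nonneg_of_le (fun n => by positivity) (fun n => ?_)
      ((Real.summable_nat_pow_inv.mpr one_lt_two).mul_left C)
    rcases Nat.eq_zero_or_pos n with rfl | h
    · simp [ha0]
    · have hn : (0 : ℝ) < n := by exact_mod_cast h
      have e : p n ^ (3 * lam) = (n : ℝ) ^ 3 := by
        rw [hpdef, ← Real.rpow_mul hn.le, ← Real.rpow_natCast]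
        congr 1; field_simp; norm_num
      rw [e, div_le_iff₀ (by positivity)]
      refine (ha n).trans (le_of_eq ?_)
      field_simp
  have hs' : Summable fun n => |c n| / p n ^ (3 * lam + 1) := by
    refine hs.congr fun n => ?_
    rcases hp n with h | h
    · simp [hcdef, h]
    · have h0 : 0 < p n := by linarith
      rw [hcdef]
      simp only
      rw [abs_neg, abs_mul, abs_of_pos h0, Real.rpow_add_one h0.ne', mul_div_mul_right _ _ h0.ne']
  have hEf : E = fun y => ∑' n, a n * Real.exp (-(y * p n)) := funext hE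
  have hEf' : E' = fun y => ∑' n, c n * Real.exp (-(y * p n)) := by
    funext y; rw [hE']; exact tsum_congr fun n => by simp [hcdef, hpdef]
  have hc1 : ContinuousOn E (Ioi 0) := hEf ▸ series_cont hp hs
  have hc2 : ContinuousOn E' (Ioi 0) := hEf' ▸ series_cont hp' hs'
  have hre : ∀ w : ℂ, (w / lam).re = w.re / lam := fun w => Complex.div_ofReal_re w lam
  have him : ∀ w : ℂ, (w / lam).im = w.im / lam := fun w => Complex.div_ofReal_im w lam
  have hmem : ∀ w : ℂ, α * lam < w.re → α < (w / lam).re := fun w hw => by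
    rw [hre, lt_div_iff₀ hl0]; exact hw
  have hpw : ∀ (n : ℕ) (w : ℂ), n ≠ 0 → ((p n : ℝ) : ℂ) ^ w = (n : ℂ) ^ (w / lam) := by
    intro n w hn
    have hn' : (0 : ℝ) < n := by positivity
    have h0 : 0 < p n := Real.rpow_pos_of_pos hn' _
    rw [Complex.cpow_def_of_ne_zero (Complex.ofReal_ne_zero.mpr h0.ne'),
      Complex.cpow_def_of_ne_zero (Nat.cast_ne_zero.mpr hn), ← Complex.ofReal_log h0.le,
      ← Complex.natCast_log, hpdef]
    simp only
    rw [Real.log_rpow hn']
    congr 1; push_cast; ring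
  have hL : ∀ w : ℂ, 3 * lam ≤ w.re → F (w / lam) = ∑' n, (a n : ℂ) / (p n : ℂ) ^ w := by
    intro w hw
    rw [hFa _ (by rw [hre, le_div_iff₀ hl0]; exact hw), LSeries]
    refine tsum_congr fun n => ?_
    rcases eq_or_ne n 0 with rfl | hn
    · simp [ha0]
    · rw [LSeries.term_of_ne_zero hn, hpw n w hn]
  have hm1 : ∀ w : ℂ, 3 * lam ≤ w.re →
      mellin (fun y => (E y : ℂ)) w = Complex.Gamma w * F (w / lam) := by
    intro w hw
    rw [hEf, ← (series_mellin hp hs (by positivity) hw).tsum_eq, hL w hw, ← tsum_mul_left]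
    exact tsum_congr fun n => mul_div_assoc _ _ _
  have hm2 : ∀ w : ℂ, 3 * lam ≤ w.re →
      mellin (fun y => ((y * E' y : ℝ) : ℂ)) w = -(w * Complex.Gamma w * F (w / lam)) := by
    intro w hw
    have hw0 : w ≠ 0 := by
      rintro rfl
      simp at hw; linarith
    have e1 : (fun y : ℝ => ((y * E' y : ℝ) : ℂ)) = fun y : ℝ => (y : ℂ) ^ (1 : ℂ) • (E' y : ℂ) := by
      funext y; simp
    rw [e1, mellin_cpow_smul, hEf',
      ← (series_mellin hp' hs' (by positivity) (w := w + 1) (by simpa using hw)).tsum_eq,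
      hL w hw, ← tsum_mul_left, ← tsum_neg]
    refine tsum_congr fun n => ?_
    rcases hp n with h | h
    · simp [hcdef, h]
    · have h0 : ((p n : ℝ) : ℂ) ≠ 0 := Complex.ofReal_ne_zero.mpr (by linarith)
      have h1 : ((p n : ℝ) : ℂ) ^ w ≠ 0 := by simp [h0]
      rw [Complex.Gamma_add_one w hw0, Complex.cpow_add _ _ h0, Complex.cpow_one, hcdef]
      push_cast
      field_simp
  have hΦ : DifferentiableOn ℂ (fun w => Complex.Gamma w * F (w / lam))
      {w | α * lam < w.re} := by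
    refine DifferentiableOn.mul (fun w hw => (Complex.differentiableAt_Gamma w fun m h => ?_
      ).differentiableWithinAt) (hF.comp (by fun_prop) fun w hw => hmem w hw)
    have h1 : α * lam < w.re := hw
    rw [h] at h1
    have : (0 : ℝ) ≤ m := by positivity
    simp at h1; linarith
  have hΦ' : DifferentiableOn ℂ (fun w => -(w * Complex.Gamma w * F (w / lam)))
      {w | α * lam < w.re} := by
    simp only [mul_assoc]
    exact (differentiableOn_id.mul hΦ).neg
  have hFb' : ∀ w : ℂ, α * lam < w.re → ‖F (w / lam)‖ ≤ C * (2 + |w.im|) := fun w hw => by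
    refine (hFb _ (hmem w hw)).trans ?_
    rw [him, abs_div, abs_of_pos hl0]
    gcongr
    exact div_le_self (abs_nonneg _) hlam
  have hd1 : Decay (α * lam) fun w => Complex.Gamma w * F (w / lam) := by
    intro s1 s2 h1
    obtain ⟨K, hK0, hK⟩ := gamma_decay (s1 := s1) (s2 := s2) (by linarith)
    refine ⟨3 * C * K, fun w hw1 hw2 => ?_⟩
    rw [← div_eq_mul_inv, le_div_iff₀ (by positivity), norm_mul]
    have b1 := hFb' w (by linarith)
    have b2 : 2 + |w.im| ≤ 3 * (1 + w.im ^ 2) := by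
      rw [← sq_abs]; nlinarith [abs_nonneg w.im, sq_nonneg (|w.im| - 1)]
    calc _ ≤ ‖Complex.Gamma w‖ * (C * (3 * (1 + w.im ^ 2))) * (1 + w.im ^ 2) := by
          gcongr
          exact b1.trans (by gcongr)
      _ = 3 * C * (‖Complex.Gamma w‖ * (1 + w.im ^ 2) ^ 2) := by ring
      _ ≤ _ := by gcongr; exact hK w hw1 hw2
  have hd2 : Decay (α * lam) fun w => -(w * Complex.Gamma w * F (w / lam)) := by
    intro s1 s2 h1
    obtain ⟨K, hK0, hK⟩ := gamma_decay (s1 := s1) (s2 := s2) (by linarith)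
    refine ⟨(3 * |s2| + 3) * C * K, fun w hw1 hw2 => ?_⟩
    rw [← div_eq_mul_inv, le_div_iff₀ (by positivity), norm_neg, norm_mul, norm_mul]
    have b1 := hFb' w (by linarith)
    have b0 : ‖w‖ ≤ |s2| + |w.im| := by
      refine (Complex.norm_le_abs_re_add_abs_im w).trans ?_
      rw [abs_of_pos (show 0 < w.re by linarith)]
      linarith [le_abs_self s2]
    have b2 : (|s2| + |w.im|) * (2 + |w.im|) ≤ (3 * |s2| + 3) * (1 + w.im ^ 2) := by
      rw [← sq_abs w.im]
      have a1 := abs_nonneg w.im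
      have a2 := abs_nonneg s2
      have a3 : 2 + |w.im| ≤ 3 * (1 + |w.im| ^ 2) := by nlinarith [sq_nonneg (|w.im| - 1)]
      have a4 := mul_le_mul_of_nonneg_left a3 a2
      nlinarith [sq_nonneg (|w.im| - 1)]
    calc _ ≤ (|s2| + |w.im|) * ‖Complex.Gamma w‖ * (C * (2 + |w.im|)) * (1 + w.im ^ 2) := by
          gcongr
      _ = ((|s2| + |w.im|) * (2 + |w.im|)) * (C * ‖Complex.Gamma w‖ * (1 + w.im ^ 2)) := by ring
      _ ≤ ((3 * |s2| + 3) * (1 + w.im ^ 2)) * (C * ‖Complex.Gamma w‖ * (1 + w.im ^ 2)) := by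
          gcongr
      _ = (3 * |s2| + 3) * C * (‖Complex.Gamma w‖ * (1 + w.im ^ 2) ^ 2) := by ring
      _ ≤ _ := by gcongr; exact hK w hw1 hw2
  have r1 := mellin_extend (c := 3 * lam) (f := fun y => (E y : ℂ))
    (Complex.continuous_ofReal.comp_continuousOn hc1) (fun N hN => by
      obtain ⟨K, hK⟩ := series_bound hp hs hN
      exact ⟨K, fun y hy => by
        rw [Complex.norm_real, Real.norm_eq_abs, hEf]; exact hK y hy⟩) hm1 hΦ hd1
  have r2 := mellin_extend (c := 3 * lam) (f := fun y => ((y * E' y : ℝ) : ℂ))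
    (Complex.continuous_ofReal.comp_continuousOn (continuousOn_id.mul hc2)) (fun N hN => by
      obtain ⟨K, hK⟩ := series_bound hp' hs' (N := N + 1) (by push_cast; linarith)
      refine ⟨K, fun y hy => ?_⟩
      have := hK y hy
      rw [Nat.cast_succ, Real.rpow_add_one hy.ne', mul_assoc] at this
      rw [Complex.norm_real, Real.norm_eq_abs, abs_mul, abs_of_pos hy, hEf']
      exact this) hm2 hΦ' hd2
  refine ⟨fun y hy => ?_, hc2, fun b hb => ?_, fun w hw => ⟨r1.2 w hw, r2.2 w hw⟩⟩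
  · rw [hEf, hEf']
    have hy' : 0 < y / 2 := half_pos hy
    refine hasDerivAt_tsum_of_isPreconnected (t := Ioi (y / 2)) (y₀ := y) (hs'.mul_left _)
      isOpen_Ioi isPreconnected_Ioi (fun n x _ => ?_)
      (fun n x hx => term_bound' (θ := 3 * lam + 1) hp' hy' n (le_of_lt hx))
      (half_lt_self hy) (series_summable hp hs hy) (half_lt_self hy)
    have := (((hasDerivAt_id x).mul_const (p n)).neg.exp).const_mul (a n)
    refine this.congr_deriv ?_
    simp [hcdef]; ring
  · obtain ⟨K, hK⟩ := r1.1 b hb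
    exact ⟨K, fun y hy => by simpa using hK y hy⟩

end Pool.Agent.H803Z.QR
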