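import Pool.Agent.H803Z.QR.Kernel
import Pool.Agent.H803Z.QR.Arith
import Pool.Agent.H520Z.Sel.Exotic

/-! If the zeta function has a zero-free half plane `Re s > θ`, `θ < 1`, then the Selberg class
contains entire functions of every large degree that vanish at `s = 1`. -/

set_option autoImplicit false

namespace Pool.Agent.H803Z.QR

open MeasureTheory Set Filter Topology
open Pool.Agent.H520Z.Sel Pool.Agent.H369Z.Pole Pool.Agent.H295R2

theorem exists_theta {θ : ℝ} (hθ : 1 / 2 ≤ θ) (hθ1 : θ < 1)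
    (hz : ∀ s : ℂ, θ < s.re → Zs s ≠ 0) : ∃ lam0 : ℝ, ∀ lam : ℝ, lam0 ≤ lam →
    0 < lam ∧ ∃ (η : ℝ) (x : ℕ → ℝ), 0 < η ∧ (∀ p, |x p| ≤ 1) ∧
      Summable (fun p : ℕ => |x p| * (p : ℝ) ^ (-1 : ℝ)) ∧
      ∀ t : ℝ, 0 < t → ∑' n : ℕ, qc x n * Real.exp (-(t * (η * (n : ℝ) ^ (1 / lam)))) =
        t ^ (-lam) * ∑' n : ℕ, qc x n * Real.exp (-(η * (n : ℝ) ^ (1 / lam) / t)) := by
  set δ0 : ℝ := (1 - θ) / 4 with hδ0
  have hδ0p : 0 < δ0 := by rw [hδ0]; linarith
  have hδ01 : δ0 ≤ 1 / 8 := by rw [hδ0]; linarith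
  set α : ℝ := θ + δ0 with hα
  set α' : ℝ := θ + 2 * δ0 with hα'
  set γ : ℝ := θ + 3 * δ0 with hγ
  have hγ1 : 1 - γ = δ0 := by rw [hγ, hδ0]; ring
  obtain ⟨L, hL1, hasm⟩ := assemble γ (by linarith)
  have hL1' : (1 : ℝ) ≤ L := by exact_mod_cast hL1
  refine ⟨max (9 * L) (9 / δ0), fun lam hlam => ?_⟩
  have hl1 : 9 * (L : ℝ) ≤ lam := (le_max_left _ _).trans hlam
  have hl2 : 9 ≤ δ0 * lam := by
    have := (le_max_right _ _).trans hlam
    rw [div_le_iff₀ hδ0p] at this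
    linarith
  have hlam9 : 9 ≤ lam := by linarith
  have hlam0 : 0 < lam := by linarith
  refine ⟨hlam0, ?_⟩
  obtain ⟨C1, hC1, hb1⟩ := fz_bound (θ := θ) (σ := α) (ε := 1) (by linarith) hz (by linarith)
    one_pos
  obtain ⟨C2, hC2, hb2⟩ := zeta_bounds (a := 2) (by norm_num)
  set C : ℝ := C1 + C2 with hC
  have hC0 : 1 ≤ C := by linarith
  have hup : ∀ s : ℂ, α < s.re → ‖fz s‖ ≤ C * (2 + |s.im|) := by
    intro s hs
    have ha := abs_nonneg s.im
    rcases le_total s.re 2 with h | h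
    · have := hb1 s hs.le h
      rw [Real.rpow_one] at this
      nlinarith
    · have := (hb2 s h).2
      nlinarith
  have hlow : ∀ s : ℂ, α < s.re → s.re ≤ γ → 1 ≤ 20 / δ0 * (1 + |s.im|) ^ 2 * ‖fz s‖ := by
    intro s hs1 hs2
    have h1 := Zs_norm_le (s := s) (by linarith)
    have h2 : ‖s‖ + 1 ≤ 2 * (1 + |s.im|) := by
      have := Complex.norm_le_abs_re_add_abs_im s
      rw [abs_of_pos (show 0 < s.re by linarith)] at this
      linarith [abs_nonneg s.im]
    have h3 : ‖Zs s‖ ≤ 20 * (1 + |s.im|) ^ 2 := by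
      have : (‖s‖ + 1) ^ 2 ≤ (2 * (1 + |s.im|)) ^ 2 := by gcongr
      nlinarith
    have h4 : δ0 ≤ ‖s - 1‖ := by
      have := Complex.abs_re_le_norm (s - 1)
      rw [Complex.sub_re, Complex.one_re, abs_of_neg (by linarith)] at this
      linarith
    have h5 : 0 < ‖Zs s‖ := norm_pos_iff.2 (hz s (by linarith))
    rw [fz, norm_div]
    have h6 : 0 < (1 + |s.im|) ^ 2 := by positivity
    calc (1 : ℝ) = 20 / δ0 * (1 + |s.im|) ^ 2 * (δ0 / (20 * (1 + |s.im|) ^ 2)) := by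
          field_simp
      _ ≤ _ := by gcongr
  set E : ℝ → ℝ := fun y => ∑' n : ℕ, mu n * Real.exp (-(y * (n : ℝ) ^ (1 / lam))) with hE
  set E' : ℝ → ℝ := fun y => ∑' n : ℕ,
      -(mu n * (n : ℝ) ^ (1 / lam) * Real.exp (-(y * (n : ℝ) ^ (1 / lam)))) with hE'
  obtain ⟨k1, k2, k3, k4⟩ := kernel_mellin_gen α (by linarith) lam (by linarith) mu mu_zero C
    (fun n => by
      rcases Nat.eq_zero_or_pos n with rfl | hn
      · simp [mu_zero]
      · have h1 : (1 : ℝ) ≤ n := by exact_mod_cast hn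
        nlinarith [mu_abs n])
    fz (fun s hs => (fz_differentiableAt (hz s (by
      have : α < s.re := hs
      linarith))).differentiableWithinAt) hup
    (fun s hs => by rw [mu_cast, (moebius_lseries (by linarith)).LSeries_eq])
    E E' (fun y => rfl) (fun y => rfl)
  set c1 : ℝ := α' * lam with hc1
  set c : ℝ := c1 + 9 with hc
  have hαc : α * lam + 9 ≤ c1 := by rw [hc1, hα', hα]; nlinarith
  have hcγ : c ≤ γ * lam := by rw [hc, hc1, hα', hγ]; nlinarith
  have hhalf : lam / 2 ≤ c1 := by rw [hc1, hα']; nlinarith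
  have hαl : 0 < α * lam := by
    have : 0 < α := by linarith
    positivity
  obtain ⟨Cg, hCg, hg⟩ := Pool.Agent.Helper242.KK.inv_Gamma_bound (ε := 1) one_pos
  have hdiv : ∀ (σ u : ℝ), c1 ≤ σ → σ ≤ c → α < (((σ : ℂ) + u * Complex.I) / lam).re ∧
      (((σ : ℂ) + u * Complex.I) / lam).re ≤ γ ∧
      |(((σ : ℂ) + u * Complex.I) / lam).im| ≤ |u| := by
    intro σ u hσ hσ'
    rw [Complex.div_ofReal_re, Complex.div_ofReal_im]
    simp only [Complex.add_re, Complex.ofReal_re, Complex.mul_re, Complex.I_re, mul_zero,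
      Complex.ofReal_im, Complex.I_im, mul_one, sub_self, add_zero, Complex.add_im,
      Complex.mul_im, zero_add]
    refine ⟨?_, ?_, ?_⟩
    · rw [lt_div_iff₀ hlam0]; linarith
    · rw [div_le_iff₀ hlam0]; linarith
    · rw [abs_div, abs_of_pos hlam0]
      exact div_le_self (abs_nonneg u) (by linarith)
  set K0 : ℝ := Cg * Real.exp (1 * (c - 1 / 2) ^ 2) * (20 / δ0) with hK0
  have hK0p : 0 < K0 := by positivity
  set K1 : ℝ := Real.exp 1 * Real.Gamma c1 * (Real.pi / 2) ^ c1 * (c1 + 1) * (C * 2)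
    with hK1
  have hc1p : 0 < c1 := by linarith
  have hGp : 0 < Real.Gamma c1 := Real.Gamma_pos_of_pos hc1p
  obtain ⟨C0, hC0', hP⟩ := poincare lam c c1 (|9 / 2 - c| + Real.pi / 2) (K0 * K1) E E'
    (fun u => K0 * (1 + |u|) ^ (9 / 2 - c) * Real.exp (Real.pi / 2 * |u|))
    (by linarith) (by linarith) (by linarith) k1 k2 (weight_lip K0 _ hK0p.le)
    (k4 _ (by simp; linarith)).1.1
    (fun u => by
      rw [(k4 _ (by simp; linarith)).1.2, norm_mul]
      obtain ⟨d1, d2, d3⟩ := hdiv (c - 1 / 2) u (by linarith) (by linarith)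
      have a1 := hlow _ d1 d2
      have a2 := hg (c - 1 / 2) u
      have hne : Complex.Gamma (((c - 1 / 2 : ℝ) : ℂ) + u * Complex.I) ≠ 0 :=
        Complex.Gamma_ne_zero_of_re_pos (by simp; linarith)
      have a3 : 0 < ‖Complex.Gamma (((c - 1 / 2 : ℝ) : ℂ) + u * Complex.I)‖ := norm_pos_iff.2 hne
      rw [norm_inv, inv_le_iff_one_le_mul₀ a3] at a2
      have a4 : (1 + |u|) ^ (9 / 2 - c) = (1 + |u|) ^ (2 - (c - 1 / 2)) * (1 + |u|) ^ 2 := by
        rw [← Real.rpow_natCast, ← Real.rpow_add (by positivity)]; congr 1; push_cast; ring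
      have a5 : 1 ≤ 20 / δ0 * (1 + |u|) ^ 2 *
          ‖fz ((((c - 1 / 2 : ℝ) : ℂ) + u * Complex.I) / lam)‖ :=
        a1.trans (by gcongr)
      calc (1 : ℝ) = 1 * 1 := by ring
        _ ≤ _ := mul_le_mul a2 a5 zero_le_one (zero_le_one.trans a2)
        _ = _ := by rw [a4, hK0]; ring)
    (k4 _ (by simp; linarith)).2.1
    (fun u => by
      rw [(k4 _ (by simp; linarith)).2.2, norm_neg, norm_mul, norm_mul]
      obtain ⟨d1, -, d3⟩ := hdiv c1 u le_rfl (by linarith)
      have a1 : ‖fz (((c1 : ℂ) + u * Complex.I) / lam)‖ ≤ C * (2 * (1 + |u|)) := by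
        refine (hup _ d1).trans (mul_le_mul_of_nonneg_left ?_ (by linarith))
        linarith [abs_nonneg u]
      have a2 := Pool.Agent.Helper242.KK.norm_Gamma_le u hc1p
      have a3 : ‖(c1 : ℂ) + u * Complex.I‖ ≤ (c1 + 1) * (1 + |u|) := by
        refine (norm_add_le _ _).trans ?_
        simp only [Complex.norm_real, Real.norm_eq_abs, norm_mul, Complex.norm_I, mul_one,
          abs_of_pos hc1p]
        nlinarith [abs_nonneg u]
      have hu1 : 0 < 1 + |u| := by positivity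
      rw [Real.mul_rpow (by positivity) hu1.le, Real.exp_sub] at a2
      have a4 : (1 + |u|) ^ (9 / 2 - c) * (1 + |u|) ^ c1 * (1 + |u|) * (1 + |u|) ≤
          1 / (1 + u ^ 2) := by
        rw [← Real.rpow_add hu1, ← Real.rpow_add_one hu1.ne', ← Real.rpow_add_one hu1.ne']
        calc _ ≤ (1 + |u|) ^ (-2 : ℝ) :=
              Real.rpow_le_rpow_of_exponent_le (by linarith [abs_nonneg u]) (by linarith)
          _ = ((1 + |u|) ^ 2)⁻¹ := by rw [Real.rpow_neg hu1.le]; norm_cast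
          _ ≤ _ := by
              rw [one_div]
              apply inv_anti₀ (by positivity)
              nlinarith [abs_nonneg u, sq_abs u]
      have he : 0 < Real.exp (Real.pi / 2 * |u|) := Real.exp_pos _
      have hCp : 0 < C := by linarith
      calc _ ≤ K0 * (1 + |u|) ^ (9 / 2 - c) * Real.exp (Real.pi / 2 * |u|) *
            ((c1 + 1) * (1 + |u|) * (Real.exp 1 / Real.exp (Real.pi / 2 * |u|) * Real.Gamma c1 *
              ((Real.pi / 2) ^ c1 * (1 + |u|) ^ c1)) * (C * (2 * (1 + |u|)))) := by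
            gcongr
        _ = K0 * K1 * ((1 + |u|) ^ (9 / 2 - c) * (1 + |u|) ^ c1 * (1 + |u|) * (1 + |u|)) := by
            rw [hK1]; field_simp
        _ ≤ K0 * K1 * (1 / (1 + u ^ 2)) := by gcongr
        _ = _ := by ring)
  obtain ⟨η, hη, δ, hδ, hx⟩ := hasm (Vsp lam E) lam c c1 C0 hc1p (by linarith) hC0'
    (by rw [hc]; linarith) hcγ hP
    (Vsp_decay lam c E (k3 _ (by linarith)) (k3 _ (by linarith)))
  obtain ⟨x, hx1, hx2, hx3⟩ := hx η hη le_rfl 0 (fun h N hN => by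
    have := hN 1 one_pos
    have h0 : 0 ≤ N := le_trans (by positivity) this
    simp only [LinearMap.zero_apply, abs_zero]
    positivity)
  have hconv : ∀ a : ℝ, 0 < a → HasSum (fun n : ℕ => ec x n * E (a * (n : ℝ) ^ (1 / lam)))
      (∑' N : ℕ, qc x N * Real.exp (-(a * (N : ℝ) ^ (1 / lam)))) := by
    intro a ha
    obtain ⟨K, hK⟩ := exp_decay a lam ha hlam0
    have := hasSum_qc hx1 (fun N => Real.exp (-(a * (N : ℝ) ^ (1 / lam)))) K hK
    convert this using 3 with n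
    simp only [hE]
    refine tsum_congr fun m => ?_
    rw [Nat.cast_mul, Real.mul_rpow (Nat.cast_nonneg _) (Nat.cast_nonneg _), mul_assoc]
  refine ⟨η, x, hη, hx1, ?_, fun t ht => ?_⟩
  · refine hx2.of_nonneg_of_le (fun p => by positivity) fun p => ?_
    rcases Nat.eq_zero_or_pos p with rfl | hp
    · simp only [Nat.cast_zero]
      rw [Real.zero_rpow (by norm_num), mul_zero]
      positivity
    · refine mul_le_mul_of_nonneg_left (Real.rpow_le_rpow_of_exponent_le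
        (by exact_mod_cast hp) ?_) (abs_nonneg _)
      have : c / lam ≤ 1 := by rw [div_le_one hlam0]; nlinarith
      linarith
  · have h1 := hx3 ⟨fun y => E (t * y) - t ^ (-lam) * E (y / t),
      Submodule.subset_span ⟨t, ht, rfl⟩⟩
    have h2 := (hconv (t * η) (by positivity)).sub
      ((hconv (η / t) (by positivity)).mul_left (t ^ (-lam)))
    simp only [LinearMap.zero_apply] at h1
    have h3 : (fun n : ℕ => ec x n * (E (t * (η * (n : ℝ) ^ (1 / lam))) -
        t ^ (-lam) * E (η * (n : ℝ) ^ (1 / lam) / t))) =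
        fun n : ℕ => ec x n * E (t * η * (n : ℝ) ^ (1 / lam)) -
          t ^ (-lam) * (ec x n * E (η / t * (n : ℝ) ^ (1 / lam))) := by
      funext n
      rw [mul_assoc t η, div_mul_eq_mul_div]
      ring
    rw [h3] at h1
    have h4 := sub_eq_zero.1 (h2.unique h1)
    simp only [mul_assoc, div_mul_eq_mul_div] at h4
    exact h4

/-- A zero-free half plane for `ζ` produces entire members of the Selberg class, of every large
degree, that vanish at `1`. -/
theorem exists_zero_at_one {θ : ℝ} (hθ : 1 / 2 ≤ θ) (hθ1 : θ < 1)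
    (hz : ∀ s : ℂ, θ < s.re → riemannZeta s ≠ 0) : ∃ d₀ : ℝ, ∀ d : ℝ, d₀ ≤ d →
    ∃ (a : ℕ → ℂ) (F : ℂ → ℂ), Selberg a F d ∧ Differentiable ℂ F ∧ F 1 = 0 := by
  have hz' : ∀ s : ℂ, θ < s.re → Zs s ≠ 0 := by
    intro s hs
    by_cases h : s = 1
    · exact Zs_ne_zero_of_one_le (by simp [h])
    · rw [← Zs_eq h]
      exact mul_ne_zero (sub_ne_zero.2 h) (hz s hs)
  obtain ⟨l0, h⟩ := exists_theta hθ hθ1 hz'
  refine ⟨2 * l0, fun d hd => ?_⟩
  obtain ⟨hlam, η, x, hη, hx1, hx2, hFE⟩ := h (d / 2) (by linarith)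
  obtain ⟨C, hC⟩ := qc_ram hx1 1 one_pos
  obtain ⟨F, h1, h2, h3, h4, -⟩ := hecke (d / 2) η 1 C hlam hη (qc x) (qc_zero x) hC hFE
  have hser : ∀ s : ℂ, 1 < s.re → F s = LSeries (fun n => ((qc x n : ℝ) : ℂ)) s :=
    fun s hs => h3 s (by linarith) (qc_hasSum hx1 hs).1
  refine ⟨fun n => ((qc x n : ℝ) : ℂ), F, ⟨by simp [qc_one],
    fun s hs => ⟨(qc_hasSum hx1 hs).1, hser s hs⟩, fun ε hε => ?_,
    ⟨0, F, h1, h2, fun s _ => by simp⟩,
    ⟨η ^ (-(d / 2)), 1, fun _ => d / 2, fun _ => 0, 1, Real.rpow_pos_of_pos hη _,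
      fun _ => hlam, fun _ => by simp, norm_one, by simp; ring, fun s _ _ g1 g2 => ?_⟩,
    bq x, 0, 2, by norm_num, fun n hn => bq_zero x hn, fun n _ => by simpa using bq_norm hx1 n,
    fun s hs => ⟨LSeriesSummable_of_bounded_of_one_lt_re (m := 2) (fun n _ => bq_norm hx1 n) hs,
      by rw [hser s hs, qc_exp hx1 hs]⟩⟩, h1, ?_⟩
  · obtain ⟨C', hC'⟩ := qc_ram hx1 ε hε
    exact ⟨C', fun n hn => by simpa using hC' n hn⟩
  · have := h4 s (fun n => by simpa using g1 0 n) (fun n => by simpa using g2 0 n)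
    simpa using this
  · obtain ⟨d0, hd0⟩ := aC_upper hx1 hx2
    have hc : Continuous fun σ : ℝ => ((σ : ℝ) : ℂ) := Complex.continuous_ofReal
    have t1 : Tendsto (fun σ : ℝ => ‖F (σ : ℂ)‖) (𝓝[>] 1) (𝓝 ‖F 1‖) := by
      have := ((h1.continuous.comp hc).norm.tendsto 1).mono_left (nhdsWithin_le_nhds (s := Ioi 1))
      simpa using this
    have t2 : Tendsto (fun σ : ℝ => d0 * ‖fz (σ : ℂ)‖) (𝓝[>] 1) (𝓝 (d0 * ‖fz 1‖)) := by
      have a1 : ContinuousAt fz ((1 : ℝ) : ℂ) :=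
        (fz_differentiableAt (Zs_ne_zero_of_one_le (by simp))).continuousAt
      have a2 := ((a1.comp hc.continuousAt).norm.tendsto.const_mul d0).mono_left
        (nhdsWithin_le_nhds (s := Ioi 1))
      simpa using a2
    have t3 : ‖F 1‖ ≤ d0 * ‖fz 1‖ := by
      refine le_of_tendsto_of_tendsto t1 t2 ?_
      filter_upwards [self_mem_nhdsWithin] with σ hσ
      have hσ' : 1 < (σ : ℂ).re := by simpa using hσ
      rw [hser _ hσ', (qc_hasSum hx1 hσ').2, norm_mul]
      exact mul_le_mul_of_nonneg_right (hd0 _ hσ') (norm_nonneg _)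
    have t4 : fz 1 = 0 := by simp [fz]
    rw [t4, norm_zero, mul_zero] at t3
    exact norm_le_zero_iff.1 t3

end Pool.Agent.H803Z.QR
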